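import Pool.Agent.Y840.SW.Cls

/-!
# Primes in translates of sieve windows, exact patterns along narrow progressions
-/

set_option autoImplicit false

open Finset Filter Topology

namespace Pool.Agent.Y840.SW

open Pool.Agent.Y520.NP (S_SH S_NAR NAP NAP_mono Pat bmg)

theorem cls (hS : S_SH) (hN : S_NAR) (T : ℕ) (hT : 1 ≤ T) : ∃ K : ℕ, 1 ≤ K ∧
    ∀ (q a : ℕ), Squarefree q → ∀ H : Fin T → Fin K → ℕ,
      (∀ s i s' i', H s i = H s' i' → s = s' ∧ i = i') →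
      (∀ s i, ∀ p : ℕ, p.Prime → p ∣ q → ¬ p ∣ a + H s i) →
      (∀ p : ℕ, p.Prime → ¬ p ∣ q → ∃ n : ℤ, ∀ s i, ¬ (p : ℤ) ∣ n + H s i) →
      ∃ P : Finset (Fin T × Fin K), T ≤ 4 * (P.image Prod.fst).card ∧
        ∀ R : ℕ, NAP {n | n ∈ Pat R {y | ∃ x ∈ P, y = (H x.1 x.2 : ℕ)} ∧ n ≡ a [MOD q]} := by
  classical
  have hT0 : (0 : ℝ) < T := by exact_mod_cast hT
  -- `r + 1` is the least integer `≥ T / 4`
  obtain ⟨r, hr1, hr2⟩ : ∃ r : ℕ, 4 * r < T ∧ T ≤ 4 * (r + 1) := ⟨(T - 1) / 4, by omega, by omega⟩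
  set ε : ℝ := 1 / (4 * (T + r + 1)) with hε
  have hr0 : (0 : ℝ) ≤ r := Nat.cast_nonneg r
  have hε0 : 0 < ε := by rw [hε]; positivity
  obtain ⟨K, hK, hB⟩ := hS T ε hT hε0
  have hineq : (r : ℝ) * (1 + ε) < (T : ℝ) * (1 / 4 - ε) := by
    have h1 : (4 : ℝ) * r + 1 ≤ T := by exact_mod_cast hr1
    have h2 : ε * (4 * (T + r + 1)) = 1 := by rw [hε]; field_simp
    nlinarith
  refine ⟨K, hK, fun q a hsq H hHinj hHc hHa => ?_⟩
  -- the shifts as a sequence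
  set h : ℕ → ℤ := fun i => if hi : i / K < T then
    ((H ⟨i / K, hi⟩ ⟨i % K, Nat.mod_lt _ hK⟩ : ℕ) : ℤ) else 0 with hh
  have hdiv : ∀ i < T * K, i / K < T := fun i hi => Nat.div_lt_of_lt_mul (by rwa [mul_comm] at hi)
  have hval : ∀ i (hi : i < T * K), h i =
      ((H ⟨i / K, hdiv i hi⟩ ⟨i % K, Nat.mod_lt _ hK⟩ : ℕ) : ℤ) := by
    intro i hi
    simp only [hh]
    rw [dif_pos (hdiv i hi)]
  have hinj : ∀ i < T * K, ∀ j < T * K, h i = h j → i = j := by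
    intro i hi j hj hij
    rw [hval i hi, hval j hj] at hij
    have h1 := hHinj _ _ _ _ (by exact_mod_cast hij)
    simp only [Fin.mk.injEq] at h1
    rw [← Nat.div_add_mod i K, ← Nat.div_add_mod j K, h1.1, h1.2]
  have hcop : ∀ i < T * K, ∀ p : ℕ, p.Prime → p ∣ q → ¬ (p : ℤ) ∣ (a : ℤ) + h i := by
    intro i hi p hp hpq hd
    rw [hval i hi] at hd
    exact hHc _ _ p hp hpq (by exact_mod_cast hd)
  have hadm : ∀ p : ℕ, p.Prime → ¬ p ∣ q → ∃ n : ℤ, ∀ i < T * K, ¬ (p : ℤ) ∣ n + h i := by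
    intro p hp hpq
    obtain ⟨n, hn⟩ := hHa p hp hpq
    refine ⟨n, fun i hi hd => ?_⟩
    rw [hval i hi] at hd
    exact hn _ _ hd
  have hblk : ∀ s < T, ∀ i ∈ Ico (s * K) ((s + 1) * K), i < T * K := by
    intro s hs i hi
    rw [mem_Ico] at hi
    exact hi.2.trans_le (Nat.mul_le_mul_right K hs)
  obtain ⟨Q, hQ, hhit, hNAP⟩ := fin_pat (bmg hB hN) hblk r hineq q a hsq h hinj hcop hadm
  set P : Finset (Fin T × Fin K) := univ.filter (fun x => (x.1 : ℕ) * K + x.2 ∈ Q) with hP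
  have hcoord : ∀ x : Fin T × Fin K, (x.1 : ℕ) * K + x.2 < T * K := by
    intro x
    have h1 := x.1.2
    have h2 := x.2.2
    calc (x.1 : ℕ) * K + x.2 < x.1 * K + K := by omega
      _ = (x.1 + 1) * K := by ring
      _ ≤ T * K := Nat.mul_le_mul_right K h1
  have hmod : ∀ x : Fin T × Fin K, ((x.1 : ℕ) * K + x.2) / K = x.1 ∧ ((x.1 : ℕ) * K + x.2) % K = x.2 := by
    intro x
    constructor
    · rw [Nat.add_comm, Nat.add_mul_div_right _ _ hK, Nat.div_eq_of_lt x.2.2, zero_add]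
    · rw [Nat.add_comm, Nat.add_mul_mod_self_right, Nat.mod_eq_of_lt x.2.2]
  have hhx : ∀ x : Fin T × Fin K, h ((x.1 : ℕ) * K + x.2) = ((H x.1 x.2 : ℕ) : ℤ) := by
    intro x
    rw [hval _ (hcoord x)]
    have e1 : (⟨((x.1 : ℕ) * K + x.2) / K, hdiv _ (hcoord x)⟩ : Fin T) = x.1 := Fin.ext (hmod x).1
    have e2 : (⟨((x.1 : ℕ) * K + x.2) % K, Nat.mod_lt _ hK⟩ : Fin K) = x.2 := Fin.ext (hmod x).2
    rw [e1, e2]
  refine ⟨P, ?_, fun R => ?_⟩
  · have h1 : r + 1 ≤ (P.image Prod.fst).card := by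
      refine hhit.trans ?_
      rw [← Finset.card_map (Fin.valEmbedding : Fin T ↪ ℕ) (s := P.image Prod.fst)]
      apply Finset.card_le_card
      intro s hs
      rw [mem_filter, mem_range] at hs
      obtain ⟨hs1, i, hi, hiQ⟩ := hs
      rw [mem_Ico] at hi
      rw [Finset.mem_map]
      refine ⟨⟨s, hs1⟩, ?_, rfl⟩
      rw [mem_image]
      have hiK : i - s * K < K := by
        have : (s + 1) * K = s * K + K := by ring
        omega
      refine ⟨(⟨s, hs1⟩, ⟨i - s * K, hiK⟩), ?_, rfl⟩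
      rw [hP, mem_filter]
      refine ⟨mem_univ _, ?_⟩
      have : s * K + (i - s * K) = i := by omega
      simp only
      rw [this]
      exact hiQ
    omega
  · refine NAP_mono ?_ (hNAP R)
    rintro n ⟨h3, h4⟩
    refine ⟨fun y hy => (h3 y hy).trans ?_, h4⟩
    simp only [Set.mem_ofPred_eq]
    constructor
    · rintro ⟨i, hi, rfl⟩
      have hi2 := mem_range.1 (hQ hi)
      refine ⟨(⟨i / K, hdiv i hi2⟩, ⟨i % K, Nat.mod_lt _ hK⟩), ?_, hval i hi2⟩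
      rw [hP, mem_filter]
      refine ⟨mem_univ _, ?_⟩
      have : i / K * K + i % K = i := by rw [mul_comm]; exact Nat.div_add_mod i K
      simp only
      rw [this]
      exact hi
    · rintro ⟨x, hx, rfl⟩
      rw [hP, mem_filter] at hx
      exact ⟨_, hx.2, (hhx x).symm⟩

/-- `S_NAR` and `S_SH` hold -/
theorem cls' (T : ℕ) (hT : 1 ≤ T) : ∃ K : ℕ, 1 ≤ K ∧
    ∀ (q a : ℕ), Squarefree q → ∀ H : Fin T → Fin K → ℕ,
      (∀ s i s' i', H s i = H s' i' → s = s' ∧ i = i') →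
      (∀ s i, ∀ p : ℕ, p.Prime → p ∣ q → ¬ p ∣ a + H s i) →
      (∀ p : ℕ, p.Prime → ¬ p ∣ q → ∃ n : ℤ, ∀ s i, ¬ (p : ℤ) ∣ n + H s i) →
      ∃ P : Finset (Fin T × Fin K), T ≤ 4 * (P.image Prod.fst).card ∧
        ∀ R : ℕ, NAP {n | n ∈ Pat R {y | ∃ x ∈ P, y = (H x.1 x.2 : ℕ)} ∧ n ≡ a [MOD q]} :=
  cls Pool.Agent.Y520.NP.sh (Pool.Agent.Y960.NP.nar Pool.Agent.Y677.RSZ.eng_all) T hT

end Pool.Agent.Y840.SW
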