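import Pool.Agent.Y745.SW.DefsA
import Pool.Agent.H370R2.MV

set_option autoImplicit false

/-!
Bilinear mean value theorem for Dirichlet polynomials (`P_MVB`).
-/

open Complex Filter Topology Set MeasureTheory

namespace Pool.Agent.Y840.SW

open H370.MV Pool.Agent.Y745.SW

lemma J_bound {X m n : ℕ} (T1 T2 : ℝ) (h : T1 ≤ T2) (hm : m ∈ Finset.Icc 1 X)
    (hn : n ∈ Finset.Icc 1 X) :
    ‖(∫ t in T1..T2, cexp ((I * ((Real.log n - Real.log m : ℝ) : ℂ)) * t)) -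
      (if m = n then ((T2 - T1 : ℝ) : ℂ) else 0)‖ ≤ 2 * X * (1 / |(m : ℝ) - n|) := by
  by_cases hmn : m = n
  · subst hmn
    simp only [sub_self, ofReal_zero, mul_zero, zero_mul, Complex.exp_zero,
      intervalIntegral.integral_const, if_true, abs_zero, div_zero]
    simp
  · rw [if_neg hmn, sub_zero]
    have := int_bound T1 T2 h hm hn
    rwa [if_neg hmn, zero_add] at this

lemma cs_double (s : Finset ℕ) (w : ℕ → ℕ → ℝ) (hw : ∀ m n, 0 ≤ w m n) (R : ℝ)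
    (h1 : ∀ m ∈ s, ∑ n ∈ s, w m n ≤ R) (h2 : ∀ n ∈ s, ∑ m ∈ s, w m n ≤ R)
    (x y : ℕ → ℝ) (hR : 0 ≤ R) :
    ∑ m ∈ s, ∑ n ∈ s, x m * y n * w m n ≤
      R * (√(∑ n ∈ s, x n ^ 2) * √(∑ n ∈ s, y n ^ 2)) := by
  have hA : 0 ≤ ∑ n ∈ s, x n ^ 2 := Finset.sum_nonneg fun _ _ => sq_nonneg _
  have hB : 0 ≤ ∑ n ∈ s, y n ^ 2 := Finset.sum_nonneg fun _ _ => sq_nonneg _
  rw [← Real.sqrt_mul hA]
  have e1 : R * √((∑ n ∈ s, x n ^ 2) * ∑ n ∈ s, y n ^ 2) =
      √((R * ∑ n ∈ s, x n ^ 2) * (R * ∑ n ∈ s, y n ^ 2)) := by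
    have : (R * ∑ n ∈ s, x n ^ 2) * (R * ∑ n ∈ s, y n ^ 2) =
        R ^ 2 * ((∑ n ∈ s, x n ^ 2) * ∑ n ∈ s, y n ^ 2) := by ring
    rw [this, Real.sqrt_mul (sq_nonneg R), Real.sqrt_sq hR]
  rw [e1]
  apply Real.le_sqrt_of_sq_le
  rw [← Finset.sum_product']
  have e2 : ∑ p ∈ s ×ˢ s, x p.1 * y p.2 * w p.1 p.2 =
      ∑ p ∈ s ×ˢ s, (√(w p.1 p.2) * x p.1) * (√(w p.1 p.2) * y p.2) := by
    apply Finset.sum_congr rfl
    intro p _
    have := Real.mul_self_sqrt (hw p.1 p.2)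
    calc x p.1 * y p.2 * w p.1 p.2 = x p.1 * y p.2 * (√(w p.1 p.2) * √(w p.1 p.2)) := by rw [this]
      _ = _ := by ring
  rw [e2]
  refine (Finset.sum_mul_sq_le_sq_mul_sq _ _ _).trans ?_
  apply mul_le_mul
  · rw [Finset.sum_product, Finset.mul_sum]
    apply Finset.sum_le_sum
    intro m hm
    have : ∀ n, (√(w m n) * x m) ^ 2 = w m n * x m ^ 2 := by
      intro n
      rw [mul_pow, Real.sq_sqrt (hw m n)]
    simp only [this]
    rw [← Finset.sum_mul]
    exact mul_le_mul_of_nonneg_right (h1 m hm) (sq_nonneg _)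
  · rw [Finset.sum_product_right, Finset.mul_sum]
    apply Finset.sum_le_sum
    intro n hn
    have : ∀ m, (√(w m n) * y n) ^ 2 = w m n * y n ^ 2 := by
      intro m
      rw [mul_pow, Real.sq_sqrt (hw m n)]
    simp only [this]
    rw [← Finset.sum_mul]
    exact mul_le_mul_of_nonneg_right (h2 n hn) (sq_nonneg _)
  · exact Finset.sum_nonneg fun _ _ => sq_nonneg _
  · exact mul_nonneg hR hA

theorem t_MVB : P_MVB := by
  classical
  intro X T1 T2 h a b
  have hexp : ∀ t : ℝ, (∑ n ∈ Finset.Icc 1 X, a n * (n : ℂ) ^ (-(t : ℂ) * I)) *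
      (starRingEnd ℂ) (∑ n ∈ Finset.Icc 1 X, b n * (n : ℂ) ^ (-(t : ℂ) * I)) =
      ∑ m ∈ Finset.Icc 1 X, ∑ n ∈ Finset.Icc 1 X, a m * (starRingEnd ℂ) (b n) *
        cexp ((I * ((Real.log n - Real.log m : ℝ) : ℂ)) * t) := by
    intro t
    rw [map_sum, Finset.sum_mul_sum]
    refine Finset.sum_congr rfl fun m hm => Finset.sum_congr rfl fun n hn => ?_
    rw [Finset.mem_Icc] at hm hn
    have hm0 : (m : ℂ) ≠ 0 := by
      have : m ≠ 0 := by omega
      exact_mod_cast this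
    have hn0 : (n : ℂ) ≠ 0 := by
      have : n ≠ 0 := by omega
      exact_mod_cast this
    rw [map_mul, Complex.cpow_def_of_ne_zero hm0, Complex.cpow_def_of_ne_zero hn0,
      ← Complex.exp_conj, ← Complex.natCast_log, ← Complex.natCast_log]
    simp only [map_mul, map_neg, Complex.conj_ofReal, Complex.conj_I]
    rw [mul_mul_mul_comm, ← Complex.exp_add]
    congr 2
    push_cast
    ring
  have hint : (∫ t in T1..T2, (∑ n ∈ Finset.Icc 1 X, a n * (n : ℂ) ^ (-(t : ℂ) * I)) *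
      (starRingEnd ℂ) (∑ n ∈ Finset.Icc 1 X, b n * (n : ℂ) ^ (-(t : ℂ) * I)))
      = ∑ m ∈ Finset.Icc 1 X, ∑ n ∈ Finset.Icc 1 X, a m * (starRingEnd ℂ) (b n) *
        ∫ t in T1..T2, cexp ((I * ((Real.log n - Real.log m : ℝ) : ℂ)) * t) := by
    simp_rw [hexp]
    rw [intervalIntegral.integral_finsetSum]
    · refine Finset.sum_congr rfl fun m hm => ?_
      rw [intervalIntegral.integral_finsetSum]
      · refine Finset.sum_congr rfl fun n hn => ?_
        rw [intervalIntegral.integral_const_mul]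
      · intro n hn
        exact (by fun_prop : Continuous fun t : ℝ => a m * (starRingEnd ℂ) (b n) *
          cexp ((I * ((Real.log n - Real.log m : ℝ) : ℂ)) * t)).intervalIntegrable _ _
    · intro m hm
      exact (by fun_prop : Continuous fun t : ℝ => ∑ n ∈ Finset.Icc 1 X, a m *
        (starRingEnd ℂ) (b n) *
          cexp ((I * ((Real.log n - Real.log m : ℝ) : ℂ)) * t)).intervalIntegrable _ _
  have hdiag : ((T2 - T1 : ℝ) : ℂ) * ∑ n ∈ Finset.Icc 1 X, a n * (starRingEnd ℂ) (b n) =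
      ∑ m ∈ Finset.Icc 1 X, ∑ n ∈ Finset.Icc 1 X, a m * (starRingEnd ℂ) (b n) *
        (if m = n then ((T2 - T1 : ℝ) : ℂ) else 0) := by
    rw [Finset.mul_sum]
    refine Finset.sum_congr rfl fun m hm => ?_
    simp only [mul_ite, mul_zero]
    rw [Finset.sum_ite_eq, if_pos hm]
    ring
  rw [hint, hdiag, ← Finset.sum_sub_distrib]
  simp_rw [← Finset.sum_sub_distrib, ← mul_sub]
  have hstep : ‖∑ m ∈ Finset.Icc 1 X, ∑ n ∈ Finset.Icc 1 X, a m * (starRingEnd ℂ) (b n) *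
      ((∫ t in T1..T2, cexp ((I * ((Real.log n - Real.log m : ℝ) : ℂ)) * t)) -
        (if m = n then ((T2 - T1 : ℝ) : ℂ) else 0))‖ ≤
      ∑ m ∈ Finset.Icc 1 X, ∑ n ∈ Finset.Icc 1 X, ‖a m‖ * ‖b n‖ *
        (2 * X * (1 / |(m : ℝ) - n|)) := by
    refine (norm_sum_le _ _).trans (Finset.sum_le_sum fun m hm => (norm_sum_le _ _).trans
      (Finset.sum_le_sum fun n hn => ?_))
    rw [norm_mul, norm_mul, RCLike.norm_conj]
    exact mul_le_mul_of_nonneg_left (J_bound T1 T2 h hm hn) (by positivity)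
  refine hstep.trans ?_
  have hlog : 0 ≤ Real.log (X : ℝ) := Real.log_natCast_nonneg X
  have hrow : ∀ m ∈ Finset.Icc 1 X, ∑ n ∈ Finset.Icc 1 X, 2 * X * (1 / |(m : ℝ) - n|) ≤
      4 * X * (1 + Real.log X) := by
    intro m hm
    rw [← Finset.mul_sum]
    have h5 := mul_le_mul_of_nonneg_left (harm_sum X m hm) (by positivity : (0:ℝ) ≤ 2 * X)
    linarith
  have hcol : ∀ n ∈ Finset.Icc 1 X, ∑ m ∈ Finset.Icc 1 X, 2 * X * (1 / |(m : ℝ) - n|) ≤
      4 * X * (1 + Real.log X) := by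
    intro n hn
    have := hrow n hn
    simp_rw [abs_sub_comm (n : ℝ)] at this
    exact this
  have hR : (0 : ℝ) ≤ 4 * X * (1 + Real.log X) := by positivity
  refine (cs_double (Finset.Icc 1 X) (fun m n => 2 * X * (1 / |(m : ℝ) - n|))
    (fun m n => by positivity) _ hrow hcol (fun m => ‖a m‖) (fun n => ‖b n‖) hR
    ).trans ?_
  apply mul_le_mul_of_nonneg_right _ (by positivity)
  nlinarith

end Pool.Agent.Y840.SW
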