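import Pool.Agent.Y520.NP.Gap
import Pool.Agent.Y520.NP.Shp
import Pool.Agent.Y960.NP.Nar
import Pool.Agent.Y677.RSZ.Top

/-!
# Exact patterns of primes in arbitrary residue classes, along narrow progressions

Variant of `Pool.Agent.Y520.NP` (helper520) for a class `a` modulo `q` which need not be prime to `q`:
only the `a + h`, `h` a shift, have to be prime to `q`.
-/

set_option autoImplicit false

open Finset Filter Topology

namespace Pool.Agent.Y840.SW

open Pool.Agent.Y520.NP hiding setup fin_pat1 fin_pat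
open Pool.Agent.H361R2.Inf (FMeas)

/-- the modulus, the class and the shifts -/
theorem setup {K : ℕ} (z q a : ℕ) (hsq : Squarefree q) (h : ℕ → ℤ)
    (hinj : ∀ i < K, ∀ j < K, h i = h j → i = j)
    (hcop : ∀ i < K, ∀ p : ℕ, p.Prime → p ∣ q → ¬ (p : ℤ) ∣ (a : ℤ) + h i)
    (hadm : ∀ p : ℕ, p.Prime → ¬ p ∣ q → ∃ n : ℤ, ∀ i < K, ¬ (p : ℤ) ∣ n + h i) (R : ℕ) :
    ∃ (W a0 T : ℕ) (t : ℕ → ℕ), Std K z W a0 t ∧ (∀ i < K, (t i : ℤ) = h i + T) ∧ q ∣ W ∧
      (q : ℤ) ∣ (a0 : ℤ) + T - a ∧ ∃ n₁ : ℕ, ∀ n : ℕ, n₁ ≤ n → n ≡ a0 [MOD W] → ∀ y : ℤ, |y| ≤ R →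
        (∀ i < K, y ≠ h i) → ¬ (((n + T : ℕ) : ℤ) + y).toNat.Prime := by
  classical
  set T : ℕ := ∑ i ∈ range K, (h i).natAbs + R with hT
  have hTi : ∀ i < K, (h i).natAbs + R ≤ T := by
    intro i hi
    have h1 : (h i).natAbs ≤ ∑ i ∈ range K, (h i).natAbs :=
      Finset.single_le_sum (f := fun i => (h i).natAbs) (fun _ _ => Nat.zero_le _)
        (mem_range.2 hi)
    omega
  set P0 : ℕ := max z (q + 2 * T + 1) with hP0
  have hP1 : z ≤ P0 := le_max_left _ _
  have hP2 : q + 2 * T + 1 ≤ P0 := le_max_right _ _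
  set u : ℕ → ℕ := fun k => Nat.nth Nat.Prime (P0 + 1 + k) with hu
  have hmono : StrictMono u := by
    intro i j hij
    exact Nat.nth_strictMono Nat.infinite_setOfPred_prime (by omega)
  have hup : ∀ k, (u k).Prime := fun k => Nat.prime_nth_prime _
  have hul : ∀ k, P0 < u k := by
    intro k
    have h1 : P0 + 1 + k ≤ u k :=
      (Nat.nth_strictMono Nat.infinite_setOfPred_prime).le_apply (x := P0 + 1 + k)
    omega
  set M : ℕ := u (2 * R) with hM
  have hMP : P0 < M := hul _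
  choose! np hnp using hadm
  set B : ℕ → ℤ → Prop := fun p y => |y| ≤ R ∧ (∀ i < K, y ≠ h i) ∧ u (y + R).toNat = p with hB
  set r : ℕ → ℤ := fun p => if p ∣ q then (a : ℤ) - T else if hy : ∃ y, B p y then -(hy.choose + T)
    else np p - T with hr
  obtain ⟨a0, ha0⟩ := crtM r M
  have huniq : ∀ p y y', B p y → B p y' → y = y' := by
    intro p y y' h1 h2
    have h3 : u (y + R).toNat = u (y' + R).toNat := h1.2.2.trans h2.2.2.symm
    have h4 := hmono.injective h3
    have h5 := abs_le.1 h1.1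
    have h6 := abs_le.1 h2.1
    omega
  have hrB : ∀ p y, B p y → r p = -(y + T) := by
    intro p y hy
    have h1 : ¬ p ∣ q := by
      intro hd
      by_cases hq0 : q = 0
      · exact absurd hsq (by rw [hq0]; exact not_squarefree_zero)
      · have := Nat.le_of_dvd (Nat.pos_of_ne_zero hq0) hd
        have h2 := hul (y + R).toNat
        rw [hy.2.2] at h2
        omega
    have h2 : ∃ y, B p y := ⟨y, hy⟩
    simp only [hr]
    rw [if_neg h1, dif_pos h2, huniq p _ _ h2.choose_spec hy]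
  refine ⟨prM M, a0, T, fun i => (h i + T).toNat, ⟨prM_pos M, prM_sq M, ?_, ?_, ?_⟩, ?_, ?_, ?_, ?_⟩
  · intro p hp hpz
    exact (prime_dvd_prM hp).2 (by omega)
  · intro i hi j hj hij p hp hd
    have h1 := hTi i hi
    have h2 := hTi j hj
    rw [Int.toNat_of_nonneg (by omega), Int.toNat_of_nonneg (by omega)] at hd
    have h3 : h i + T - (h j + T) ≠ 0 := by
      intro h0
      exact hij (hinj i hi j hj (by linarith))
    have h4 := Int.le_of_dvd (abs_pos.2 h3) ((dvd_abs _ _).2 hd)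
    apply (prime_dvd_prM hp).2
    have h5 : |h i + T - (h j + T)| ≤ 2 * T := by
      rw [abs_le]
      constructor <;> omega
    have h6 : (p : ℤ) ≤ 2 * T := h4.trans h5
    omega
  · intro i hi
    apply Nat.Coprime.symm
    rw [Nat.coprime_iff_gcd_eq_one]
    by_contra hcon
    obtain ⟨p, hp, hpd⟩ := Nat.exists_prime_and_dvd hcon
    have h1 : p ∣ prM M := hpd.trans (Nat.gcd_dvd_left _ _)
    have h2 : p ∣ a0 + (h i + T).toNat := hpd.trans (Nat.gcd_dvd_right _ _)
    have h3 : p ≤ M := (prime_dvd_prM hp).1 h1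
    have h4 := ha0 p hp h3
    have h5 := hTi i hi
    have h6 : (p : ℤ) ∣ (a0 : ℤ) + (h i + T) := by
      have := Int.natCast_dvd_natCast.2 h2
      rw [Nat.cast_add, Int.toNat_of_nonneg (by omega)] at this
      exact this
    have h7 : (p : ℤ) ∣ r p + T + h i := by
      have := dvd_sub h6 h4
      have e : (a0 : ℤ) + (h i + T) - (a0 - r p) = r p + T + h i := by ring
      rwa [e] at this
    by_cases hpq : p ∣ q
    · have e : r p = (a : ℤ) - T := by simp only [hr]; rw [if_pos hpq]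
      rw [e] at h7
      have e2 : (a : ℤ) - T + T + h i = a + h i := by ring
      rw [e2] at h7
      exact hcop i hi p hp hpq h7
    · by_cases hy : ∃ y, B p y
      · obtain ⟨y, hy⟩ := hy
        rw [hrB p y hy] at h7
        have e : -(y + (T : ℤ)) + T + h i = h i - y := by ring
        rw [e] at h7
        have h8 : h i - y ≠ 0 := fun h0 => hy.2.1 i hi (by linarith)
        have h9 := Int.le_of_dvd (abs_pos.2 h8) ((dvd_abs _ _).2 h7)
        have h10 : |h i - y| ≤ 2 * T := by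
          have := abs_le.1 hy.1
          rw [abs_le]
          constructor <;> omega
        have h11 : P0 < p := by
          have := hul (y + R).toNat
          rwa [hy.2.2] at this
        omega
      · have e : r p = np p - T := by
          simp only [hr]
          rw [if_neg hpq, dif_neg hy]
        rw [e] at h7
        have e2 : np p - (T : ℤ) + T + h i = np p + h i := by ring
        rw [e2] at h7
        exact hnp p hp hpq i hi h7
  · intro i hi
    have h5 := hTi i hi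
    rw [Int.toNat_of_nonneg (by omega)]
  · have : (q : ℤ) ∣ (prM M : ℤ) := by
      apply sq_dvd hsq
      intro p hp hpq
      apply Int.natCast_dvd_natCast.2
      apply (prime_dvd_prM hp).2
      have hq0 : q ≠ 0 := by rintro rfl; exact not_squarefree_zero hsq
      have := Nat.le_of_dvd (Nat.pos_of_ne_zero hq0) hpq
      omega
    exact Int.natCast_dvd_natCast.1 this
  · apply sq_dvd hsq
    intro p hp hpq
    have hq0 : q ≠ 0 := by rintro rfl; exact not_squarefree_zero hsq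
    have h1 := Nat.le_of_dvd (Nat.pos_of_ne_zero hq0) hpq
    have h2 := ha0 p hp (by omega)
    have e : r p = (a : ℤ) - T := by simp only [hr]; rw [if_pos hpq]
    rw [e] at h2
    have e2 : (a0 : ℤ) - (a - T) = a0 + T - a := by ring
    rwa [e2] at h2
  · refine ⟨M + 1, fun n hn hna y hy hyK hprime => ?_⟩
    have hb : B (u (y + R).toNat) y := ⟨hy, hyK, rfl⟩
    set p := u (y + R).toNat with hp
    have hy2 := abs_le.1 hy
    have hpM : p ≤ M := hmono.monotone (by omega)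
    have h1 := ha0 p (hup _) hpM
    rw [hrB p y hb] at h1
    have h2 : (p : ℤ) ∣ (n : ℤ) - a0 := by
      have h3 : (n : ℤ) ≡ a0 [ZMOD (prM M : ℕ)] := Int.natCast_modEq_iff.2 hna
      have h4 := h3.symm.dvd
      exact (Int.natCast_dvd_natCast.2 ((prime_dvd_prM (hup _)).2 hpM)).trans h4
    have h3 : (p : ℤ) ∣ ((n + T : ℕ) : ℤ) + y := by
      have := dvd_add h1 h2
      have e : (a0 : ℤ) - -(y + T) + (n - a0) = ((n + T : ℕ) : ℤ) + y := by push_cast; ring
      rwa [e] at this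
    have hTR : R ≤ T := by omega
    have h4 : (0 : ℤ) ≤ ((n + T : ℕ) : ℤ) + y := by push_cast; omega
    have h5 : p ∣ (((n + T : ℕ) : ℤ) + y).toNat := by
      have h6 : ((((((n + T : ℕ) : ℤ) + y).toNat : ℕ) : ℤ)) = ((n + T : ℕ) : ℤ) + y :=
        Int.toNat_of_nonneg h4
      rw [← h6] at h3
      exact Int.natCast_dvd_natCast.1 h3
    have h6 := (Nat.prime_dvd_prime_iff_eq (hup _) hprime).1 h5
    have h7 : (p : ℤ) = ((n + T : ℕ) : ℤ) + y := by
      have h8 : u (y + R).toNat = p := rfl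
      rw [h8] at h6
      rw [h6, Int.toNat_of_nonneg h4]
    push_cast at h7
    omega

/-- exact patterns, for one `R` -/
theorem fin_pat1 {K J : ℕ} {blk : ℕ → Finset ℕ} {tot c : ℝ} (hBM : BMg K J blk tot c)
    (hblk : ∀ s < J, ∀ i ∈ blk s, i < K) (r : ℕ) (hr : (r : ℝ) * tot < J * c)
    (q a : ℕ) (hsq : Squarefree q) (h : ℕ → ℤ)
    (hinj : ∀ i < K, ∀ j < K, h i = h j → i = j)
    (hcop : ∀ i < K, ∀ p : ℕ, p.Prime → p ∣ q → ¬ (p : ℤ) ∣ (a : ℤ) + h i)
    (hadm : ∀ p : ℕ, p.Prime → ¬ p ∣ q → ∃ n : ℤ, ∀ i < K, ¬ (p : ℤ) ∣ n + h i) (R : ℕ) :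
    ∃ Q ⊆ range K, r + 1 ≤ ((range J).filter (fun s => ∃ i ∈ blk s, i ∈ Q)).card ∧
      NAP {n | n ∈ Pat R {y | ∃ i ∈ Q, y = h i} ∧ n ≡ a [MOD q]} := by
  classical
  obtain ⟨z, hz⟩ := hBM
  obtain ⟨W, a0, T, t, hstd, ht, hqW, ha0, n₁, hn₁⟩ := setup z q a hsq h hinj hcop hadm R
  obtain ⟨m, hm, htot, hc, hNAP⟩ := hz W a0 t hstd
  obtain ⟨Q, hQ, hhit, hpos⟩ := cell hm (fun i n => (n + t i).Prime) K J blk hblk tot c htot hc r hr
  refine ⟨Q, hQ, hhit, ?_⟩
  refine NAP_map T n₁ ?_ (hNAP _ hpos)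
  rintro n ⟨hn1, hn2⟩ hn3
  refine ⟨fun y hy => ?_, ?_⟩
  · by_cases hyh : ∃ i < K, y = h i
    · obtain ⟨i, hi, rfl⟩ := hyh
      have e : (((n + T : ℕ) : ℤ) + h i).toNat = n + t i := by
        have : (((n + T : ℕ) : ℤ) + h i) = ((n + t i : ℕ) : ℤ) := by
          push_cast
          rw [ht i hi]
          ring
        rw [this, Int.toNat_natCast]
      rw [e, hn1 i hi]
      simp only [Set.mem_ofPred_eq]
      constructor
      · intro h1
        exact ⟨i, h1, rfl⟩
      · rintro ⟨j, hj, hij⟩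
        rw [hinj i hi j (mem_range.1 (hQ hj)) hij]
        exact hj
    · push Not at hyh
      constructor
      · intro h1
        exact absurd h1 (hn₁ n hn3 hn2 y hy hyh)
      · rintro ⟨i, hi, hyi⟩
        exact absurd hyi (hyh i (mem_range.1 (hQ hi)))
  · have h1 : (q : ℤ) ∣ (n : ℤ) - a0 := by
      have h3 : (n : ℤ) ≡ a0 [ZMOD W] := Int.natCast_modEq_iff.2 hn2
      exact (Int.natCast_dvd_natCast.2 hqW).trans h3.symm.dvd
    have h2 : (q : ℤ) ∣ ((n + T : ℕ) : ℤ) - a := by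
      have := dvd_add h1 ha0
      have e : (n : ℤ) - a0 + (a0 + T - a) = ((n + T : ℕ) : ℤ) - a := by push_cast; ring
      rwa [e] at this
    exact Int.natCast_modEq_iff.1 (Int.modEq_iff_dvd.2 h2).symm

/-- exact patterns, for all `R` at the same time -/
theorem fin_pat {K J : ℕ} {blk : ℕ → Finset ℕ} {tot c : ℝ} (hBM : BMg K J blk tot c)
    (hblk : ∀ s < J, ∀ i ∈ blk s, i < K) (r : ℕ) (hr : (r : ℝ) * tot < J * c)
    (q a : ℕ) (hsq : Squarefree q) (h : ℕ → ℤ)
    (hinj : ∀ i < K, ∀ j < K, h i = h j → i = j)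
    (hcop : ∀ i < K, ∀ p : ℕ, p.Prime → p ∣ q → ¬ (p : ℤ) ∣ (a : ℤ) + h i)
    (hadm : ∀ p : ℕ, p.Prime → ¬ p ∣ q → ∃ n : ℤ, ∀ i < K, ¬ (p : ℤ) ∣ n + h i) :
    ∃ Q ⊆ range K, r + 1 ≤ ((range J).filter (fun s => ∃ i ∈ blk s, i ∈ Q)).card ∧
      ∀ R : ℕ, NAP {n | n ∈ Pat R {y | ∃ i ∈ Q, y = h i} ∧ n ≡ a [MOD q]} := by
  classical
  choose f hf1 hf2 hf3 using fin_pat1 hBM hblk r hr q a hsq h hinj hcop hadm
  set g : ℕ → {Q : Finset ℕ // Q ∈ (range K).powerset} := fun R => ⟨f R, mem_powerset.2 (hf1 R)⟩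
    with hg
  obtain ⟨⟨Q, hQ⟩, hinf⟩ := Finite.exists_infinite_fiber g
  rw [Set.infinite_coe_iff] at hinf
  refine ⟨Q, mem_powerset.1 hQ, ?_, fun R => ?_⟩
  · obtain ⟨R, hR⟩ := hinf.nonempty
    have h1 : f R = Q := congrArg Subtype.val hR
    rw [← h1]
    exact hf2 R
  · obtain ⟨R', hR', hRR⟩ := hinf.exists_gt R
    have h1 : f R' = Q := congrArg Subtype.val hR'
    have h2 := hf3 R'
    rw [h1] at h2
    refine NAP_mono ?_ h2
    rintro n ⟨h3, h4⟩
    refine ⟨fun y hy => h3 y (hy.trans ?_), h4⟩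
    exact_mod_cast hRR.le

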